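import Pool.Agent.Helper79.AF.SiegelAux
import Pool.Agent.Helper7.AF.RigidDefs
import Pool.Agent.Helper8.AVBasic
import Pool.Agent.Helper8.GeomLemmas

/-!
Siegel's theorem: a quotient of two entire functions with the same factor of automorphy of
quadratic exponential growth is algebraic over the field of abelian functions.
-/

open Filter Topology

namespace Pool.Agent.Helper79.AF

open Pool.Agent.Helper8 Pool.Agent.GPC Pool.Agent.Helper7.AF

/-- existence of a transcendence basis among the coordinate functions -/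
lemma exists_algInd (A : AbVar) (i0 : Fin (A.N + 1)) (h0 : A.θ i0 0 ≠ 0) :
    ∃ s : Fin A.g → Fin (A.N + 1), AlgInd A i0 s := by
  classical
  have han : ∀ k, AnalyticAt ℂ (fun z => A.θ k z / A.θ i0 z) 0 := fun k =>
    (A.entire k 0 (Set.mem_univ _)).div (A.entire i0 0 (Set.mem_univ _)) h0
  set φ : Fin (A.N + 1) → ((Fin A.g → ℂ) →L[ℂ] ℂ) := fun k =>
    fderiv ℂ (fun z => A.θ k z / A.θ i0 z) 0 with hφ
  have hsep : ∀ v, (∀ k, (φ k : (Fin A.g → ℂ) →ₗ[ℂ] ℂ) v = 0) → v = 0 := by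
    intro v hv
    apply A.immersive 0 v
    have hne : ∀ᶠ z in 𝓝 (0 : Fin A.g → ℂ), A.θ i0 z ≠ 0 :=
      (A.entire i0 0 (Set.mem_univ _)).continuousAt.eventually_ne h0
    have key : ∀ k, fderiv ℂ (A.θ k) 0 v = A.θ k 0 / A.θ i0 0 * fderiv ℂ (A.θ i0) 0 v := by
      intro k
      have h1 : A.θ k =ᶠ[𝓝 0] (fun z => A.θ k z / A.θ i0 z) * A.θ i0 := by
        filter_upwards [hne] with z hz
        simp only [Pi.mul_apply]
        field_simp
      rw [h1.fderiv_eq, fderiv_mul (han k).differentiableAt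
        (A.entire i0 0 (Set.mem_univ _)).differentiableAt]
      have h2 : fderiv ℂ (fun z => A.θ k z / A.θ i0 z) 0 v = 0 := hv k
      simp only [ContinuousLinearMap.add_apply, ContinuousLinearMap.smul_apply, smul_eq_mul]
      rw [h2]
      ring
    intro i j
    rw [key i, key j]
    field_simp
  obtain ⟨y, hy⟩ := exists_coords (fun k => (φ k : (Fin A.g → ℂ) →ₗ[ℂ] ℂ)) hsep
  have hfr : Module.finrank ℂ (Fin A.g → ℂ) = A.g := Module.finrank_fin_fun ℂ
  refine ⟨fun a => y (Fin.cast hfr.symm a), ?_⟩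
  intro R hR
  by_contra hcon
  push Not at hcon
  apply hR
  refine mvPoly_eq_zero_of_local R (fun a z => A.θ (y (Fin.cast hfr.symm a)) z / A.θ i0 z)
    (fun a => φ (y (Fin.cast hfr.symm a))) (fun a => (han _).hasStrictFDerivAt) ?_ ?_
  · intro w
    obtain ⟨v, hv⟩ := hy.2 (fun i => w (Fin.cast hfr i))
    refine ⟨v, ?_⟩
    funext a
    have h1 := congrFun hv (Fin.cast hfr.symm a)
    simpa using h1
  · have hne : ∀ᶠ z in 𝓝 (0 : Fin A.g → ℂ), A.θ i0 z ≠ 0 :=
      (A.entire i0 0 (Set.mem_univ _)).continuousAt.eventually_ne h0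
    filter_upwards [hne] with z hz
    exact hcon z hz

/-- the factor of automorphy of the theta functions has quadratic exponential growth -/
lemma exists_factor (A : AbVar) : ∃ C : ℝ, 0 ≤ C ∧ ∀ l ∈ A.Λ, ∃ v : (Fin A.g → ℂ) → ℂ, ∀ z,
    (∀ i, A.θ i (z + l) = v z * A.θ i z) ∧ ‖v z‖ ≤ Real.exp (C * (1 + ‖l‖ + ‖z‖) ^ 2) := by
  obtain ⟨CH, hCH0, hCH⟩ := exists_norm_hermForm_le A.H
  obtain ⟨Cq, hCq0, hCq⟩ := exists_norm_bilForm_le A.q
  refine ⟨Real.pi * CH + Real.pi / 2 * CH + Cq + Cq, by positivity, fun l hl => ?_⟩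
  refine ⟨fun z => A.χ l *
    Complex.exp (Real.pi * hermForm A.H z l + Real.pi / 2 * hermForm A.H l l
      + bilForm A.q z l + 1 / 2 * bilForm A.q l l), fun z => ⟨fun i => A.quasi i l hl z, ?_⟩⟩
  rw [norm_mul, A.χ_norm l hl, one_mul, Complex.norm_exp]
  apply Real.exp_le_exp.mpr
  refine (Complex.re_le_norm _).trans ?_
  set S : ℝ := (1 + ‖l‖ + ‖z‖) ^ 2 with hS
  have hln := norm_nonneg l
  have hzn := norm_nonneg z
  have hzl : ‖z‖ * ‖l‖ ≤ S := by rw [hS]; nlinarith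
  have hll : ‖l‖ * ‖l‖ ≤ S := by rw [hS]; nlinarith
  have h1 : ‖(Real.pi : ℂ) * hermForm A.H z l‖ ≤ Real.pi * CH * S := by
    rw [norm_mul, Complex.norm_real, Real.norm_of_nonneg Real.pi_pos.le]
    calc Real.pi * ‖hermForm A.H z l‖ ≤ Real.pi * (CH * ‖z‖ * ‖l‖) := by gcongr; exact hCH _ _
      _ = Real.pi * CH * (‖z‖ * ‖l‖) := by ring
      _ ≤ _ := by gcongr
  have h2 : ‖(Real.pi : ℂ) / 2 * hermForm A.H l l‖ ≤ Real.pi / 2 * CH * S := by
    rw [norm_mul, norm_div, Complex.norm_real, Real.norm_of_nonneg Real.pi_pos.le]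
    simp only [Complex.norm_ofNat]
    calc Real.pi / 2 * ‖hermForm A.H l l‖ ≤ Real.pi / 2 * (CH * ‖l‖ * ‖l‖) := by
          gcongr; exact hCH _ _
      _ = Real.pi / 2 * CH * (‖l‖ * ‖l‖) := by ring
      _ ≤ _ := by gcongr
  have h3 : ‖bilForm A.q z l‖ ≤ Cq * S := by
    calc ‖bilForm A.q z l‖ ≤ Cq * ‖z‖ * ‖l‖ := hCq _ _
      _ = Cq * (‖z‖ * ‖l‖) := by ring
      _ ≤ _ := by gcongr
  have h4 : ‖(1 : ℂ) / 2 * bilForm A.q l l‖ ≤ Cq * S := by
    rw [norm_mul, norm_div, norm_one, Complex.norm_ofNat]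
    calc (1 : ℝ) / 2 * ‖bilForm A.q l l‖ ≤ 1 * (Cq * ‖l‖ * ‖l‖) := by
          gcongr
          · norm_num
          · exact hCq _ _
      _ = Cq * (‖l‖ * ‖l‖) := by ring
      _ ≤ _ := by gcongr
  have h5 : ‖(Real.pi : ℂ) * hermForm A.H z l + Real.pi / 2 * hermForm A.H l l +
      bilForm A.q z l‖ ≤ ‖(Real.pi : ℂ) * hermForm A.H z l‖ +
      ‖(Real.pi : ℂ) / 2 * hermForm A.H l l‖ + ‖bilForm A.q z l‖ :=
    (norm_add_le _ _).trans (by gcongr; exact norm_add_le _ _)
  have h6 := norm_add_le ((Real.pi : ℂ) * hermForm A.H z l + Real.pi / 2 * hermForm A.H l l +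
      bilForm A.q z l) (1 / 2 * bilForm A.q l l)
  calc _ ≤ _ := h6
    _ ≤ Real.pi * CH * S + Real.pi / 2 * CH * S + Cq * S + Cq * S := by linarith
    _ = _ := by ring

end Pool.Agent.Helper79.AF

namespace Pool.Agent.Helper7.AF

open Pool.Agent.GPC Pool.Agent.Helper8 Pool.Agent.Helper79.AF

/-- M1a (Siegel): transcendence basis, and algebraic dependence of a quotient of two entire
functions with the same factor of automorphy of quadratic exponential growth. -/
theorem siegel (A : AbVar) (i0 : Fin (A.N + 1)) (h0 : A.θ i0 0 ≠ 0) :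
    ∃ s : Fin A.g → Fin (A.N + 1), AlgInd A i0 s ∧
      ∀ (G D : (Fin A.g → ℂ) → ℂ), AnalyticOnNhd ℂ G Set.univ → AnalyticOnNhd ℂ D Set.univ →
        D 0 ≠ 0 → ∀ C : ℝ,
        (∀ l ∈ A.Λ, ∃ u : (Fin A.g → ℂ) → ℂ, ∀ z, G (z + l) = u z * G z ∧ D (z + l) = u z * D z ∧
          ‖u z‖ ≤ Real.exp (C * (1 + ‖l‖ + ‖z‖) ^ 2)) →
        ∃ P : Polynomial (MvPolynomial (Fin A.g) ℂ), P ≠ 0 ∧
          ∀ z, D z ≠ 0 → A.θ i0 z ≠ 0 → ev2 P (fun a => A.θ (s a) z / A.θ i0 z) (G z / D z) = 0 := by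
  classical
  obtain ⟨s, hs⟩ := exists_algInd A i0 h0
  refine ⟨s, hs, ?_⟩
  intro G D hG hD _ C hquasi
  obtain ⟨Cθ, hCθ0, hθ⟩ := exists_factor A
  obtain ⟨r, hr0, hr⟩ := A.exists_lattice_near
  -- constants
  set C' : ℝ := |C| + Cθ * A.g with hC'
  have hC'0 : 0 ≤ C' := by positivity
  obtain ⟨C3, hC3⟩ := exists_nat_gt (C' * (1 + 5 * r) ^ 2)
  have hC3pos : 0 < C3 := by
    have : (0 : ℝ) < C3 := lt_of_le_of_lt (by positivity) hC3
    exact_mod_cast this
  set M : ℕ := C3 ^ A.g with hM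
  set h : ℕ := C3 * (M + 1) with hh
  -- the functions
  set f : Fin (M + 1) × (Fin A.g → Fin (M + 1)) → (Fin A.g → ℂ) → ℂ := fun k z =>
    G z ^ (k.1 : ℕ) * D z ^ (M - k.1) *
      ∏ a, (A.θ (s a) z ^ (k.2 a : ℕ) * A.θ i0 z ^ (M - k.2 a)) with hf
  have hfa : ∀ k z, AnalyticAt ℂ (f k) z := by
    intro k z
    rw [hf]
    refine AnalyticAt.mul ?_ ?_
    · exact ((hG z (Set.mem_univ _)).pow _).mul ((hD z (Set.mem_univ _)).pow _)
    · exact Finset.analyticAt_fun_prod _ fun a _ =>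
        ((A.entire _ z (Set.mem_univ _)).pow _).mul ((A.entire _ z (Set.mem_univ _)).pow _)
  have hcard : h ^ A.g < Fintype.card (Fin (M + 1) × (Fin A.g → Fin (M + 1))) := by
    rw [Fintype.card_prod, Fintype.card_fin, Fintype.card_fun, Fintype.card_fin, Fintype.card_fin,
      hh, mul_pow]
    have : 0 < (M + 1) ^ A.g := by positivity
    rw [← hM]
    nlinarith
  obtain ⟨c, hc0, hv⟩ := exists_van f (fun k => hfa k 0) hcard
  set F : (Fin A.g → ℂ) → ℂ := ∑ k, fun z => c k * f k z with hF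
  have hFa : ∀ z, AnalyticAt ℂ F z := fun z =>
    Finset.analyticAt_sum _ fun k _ => analyticAt_const.mul (hfa k z)
  have hFz : ∀ z, F z = ∑ k, c k * f k z := by
    intro z
    rw [hF, Finset.sum_apply]
  have hF0 : ∀ z, F z = 0 := by
    refine eq_zero_of_quasi hFa hv (A.Λ : Set (Fin A.g → ℂ)) hr0 hr (K := C' * M) (by positivity)
      ?_ ?_
    · intro l hl
      obtain ⟨u, hu⟩ := hquasi l hl
      obtain ⟨v, hvv⟩ := hθ l hl
      refine ⟨fun z => u z ^ M * ∏ _a : Fin A.g, v z ^ M, fun z => ⟨?_, ?_⟩⟩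
      · obtain ⟨hu1, hu2, _⟩ := hu z
        obtain ⟨hv1, _⟩ := hvv z
        rw [hFz, hFz, Finset.mul_sum]
        apply Finset.sum_congr rfl
        intro k _
        have e1 : u z ^ M = u z ^ (k.1 : ℕ) * u z ^ (M - k.1) := by
          rw [← pow_add]; congr 1; have := k.1.2; omega
        have e2 : ∀ a, v z ^ M = v z ^ (k.2 a : ℕ) * v z ^ (M - k.2 a) := by
          intro a
          rw [← pow_add]; congr 1; have := (k.2 a).2; omega
        have e3 : (∏ _a : Fin A.g, v z ^ M) =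
            ∏ a : Fin A.g, (v z ^ (k.2 a : ℕ) * v z ^ (M - k.2 a)) :=
          Finset.prod_congr rfl fun a _ => e2 a
        change c k * f k (z + l) = (u z ^ M * ∏ _a : Fin A.g, v z ^ M) * (c k * f k z)
        rw [e3, e1]
        simp only [hf, hu1, hu2, hv1, mul_pow, Finset.prod_mul_distrib]
        ring
      · obtain ⟨_, _, hu3⟩ := hu z
        obtain ⟨_, hv2⟩ := hvv z
        rw [norm_mul, norm_pow, norm_prod]
        simp only [norm_pow, Finset.prod_const, Finset.card_univ, Fintype.card_fin]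
        set S : ℝ := (1 + ‖l‖ + ‖z‖) ^ 2 with hS
        have hS0 : 0 ≤ S := by positivity
        have b1 : ‖u z‖ ≤ Real.exp (|C| * S) := by
          refine hu3.trans (Real.exp_le_exp.mpr ?_)
          gcongr
          exact le_abs_self C
        calc ‖u z‖ ^ M * (‖v z‖ ^ M) ^ A.g ≤
            Real.exp (|C| * S) ^ M * (Real.exp (Cθ * S) ^ M) ^ A.g := by gcongr
          _ = Real.exp (C' * M * S) := by
              rw [← Real.exp_nat_mul, ← Real.exp_nat_mul, ← Real.exp_nat_mul, ← Real.exp_add, hC']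
              congr 1
              ring
    · rw [hh]
      push_cast
      have h1 : (0 : ℝ) ≤ M := by positivity
      have h2 : (0 : ℝ) < C3 := by exact_mod_cast hC3pos
      calc C' * (M : ℝ) * (1 + 5 * r) ^ 2 = (C' * (1 + 5 * r) ^ 2) * (M : ℝ) := by ring
        _ ≤ (C3 : ℝ) * (M : ℝ) := by gcongr
        _ < (C3 : ℝ) * ((M : ℝ) + 1) := by nlinarith
  -- the polynomial
  set P : Polynomial (MvPolynomial (Fin A.g) ℂ) := ∑ k : Fin (M + 1) × (Fin A.g → Fin (M + 1)),
    Polynomial.monomial (k.1 : ℕ) (MvPolynomial.monomial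
      (Finsupp.equivFunOnFinite.symm fun a => (k.2 a : ℕ)) (c k)) with hP
  refine ⟨P, ?_, ?_⟩
  · intro hP0
    apply hc0
    funext k
    have h1 : (P.coeff (k.1 : ℕ)).coeff (Finsupp.equivFunOnFinite.symm fun a => (k.2 a : ℕ)) =
        c k := by
      rw [hP, Polynomial.finset_sum_coeff, MvPolynomial.coeff_sum, Finset.sum_eq_single k]
      · rw [Polynomial.coeff_monomial, if_pos rfl, MvPolynomial.coeff_monomial, if_pos rfl]
      · intro k' _ hk'
        rw [Polynomial.coeff_monomial]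
        split_ifs with h2
        · rw [MvPolynomial.coeff_monomial, if_neg]
          intro h3
          apply hk'
          have h4 := Finsupp.equivFunOnFinite.symm.injective h3
          refine Prod.ext (Fin.ext h2) ?_
          funext a
          exact Fin.ext (congrFun h4 a)
        · exact MvPolynomial.coeff_zero _
      · intro hk
        exact absurd (Finset.mem_univ k) hk
    rw [hP0] at h1
    simpa using h1.symm
  · intro z hDz hθz
    have h1 : ev2 P (fun a => A.θ (s a) z / A.θ i0 z) (G z / D z) =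
        ∑ k : Fin (M + 1) × (Fin A.g → Fin (M + 1)),
          (c k * ∏ a, (A.θ (s a) z / A.θ i0 z) ^ (k.2 a : ℕ)) * (G z / D z) ^ (k.1 : ℕ) := by
      unfold ev2
      rw [hP, Polynomial.map_sum, Polynomial.eval_finset_sum]
      apply Finset.sum_congr rfl
      intro k _
      rw [Polynomial.map_monomial, Polynomial.eval_monomial, MvPolynomial.eval_monomial,
        Finsupp.prod_fintype _ _ (by simp)]
      simp only [Finsupp.equivFunOnFinite_symm_apply_apply]
    rw [h1]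
    have h2 : ∀ k : Fin (M + 1) × (Fin A.g → Fin (M + 1)),
        (c k * ∏ a, (A.θ (s a) z / A.θ i0 z) ^ (k.2 a : ℕ)) * (G z / D z) ^ (k.1 : ℕ) =
        (c k * f k z) / (D z ^ M * ∏ _a : Fin A.g, A.θ i0 z ^ M) := by
      intro k
      have e1 : D z ^ M = D z ^ (k.1 : ℕ) * D z ^ (M - k.1) := by
        rw [← pow_add]; congr 1; have := k.1.2; omega
      have e2 : ∀ a, A.θ i0 z ^ M = A.θ i0 z ^ (k.2 a : ℕ) * A.θ i0 z ^ (M - k.2 a) := by
        intro a
        rw [← pow_add]; congr 1; have := (k.2 a).2; omega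
      have e3 : (∏ _a : Fin A.g, A.θ i0 z ^ M) =
          (∏ a : Fin A.g, A.θ i0 z ^ (k.2 a : ℕ)) * ∏ a : Fin A.g, A.θ i0 z ^ (M - k.2 a) := by
        rw [← Finset.prod_mul_distrib]
        exact Finset.prod_congr rfl fun a _ => e2 a
      have n1 : D z ^ (k.1 : ℕ) ≠ 0 := pow_ne_zero _ hDz
      have n2 : D z ^ (M - k.1) ≠ 0 := pow_ne_zero _ hDz
      have n3 : (∏ a : Fin A.g, A.θ i0 z ^ (k.2 a : ℕ)) ≠ 0 :=
        Finset.prod_ne_zero_iff.mpr fun a _ => pow_ne_zero _ hθz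
      have n4 : (∏ a : Fin A.g, A.θ i0 z ^ (M - k.2 a)) ≠ 0 :=
        Finset.prod_ne_zero_iff.mpr fun a _ => pow_ne_zero _ hθz
      rw [e3, e1]
      simp only [hf, div_pow, Finset.prod_div_distrib, Finset.prod_mul_distrib]
      field_simp
    rw [Finset.sum_congr rfl fun k _ => h2 k, ← Finset.sum_div, ← hFz, hF0 z, zero_div]

end Pool.Agent.Helper7.AF
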