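import Mathlib
import Pool.Agent.Helper8.SVDir
import Pool.Agent.Helper8.SLAnalytic

/-!
Auxiliary results for the algebraic dependence theorem (Siegel's method): vanishing conditions at
the origin, Schwarz lemma, quasi-periodic functions with a zero of high order.
-/

open Filter Topology

namespace Pool.Agent.Helper79.AF

open Pool.Agent.Helper8

section van

variable {g : ℕ}

/-- the standard basis vectors of `ℂ^g` -/
noncomputable def eb (a : Fin g) : Fin g → ℂ := Pi.single a 1

/-- the word `0^(β 0) 1^(β 1) ...` -/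
def canon (β : Fin g → ℕ) : List (Fin g) :=
  (List.finRange g).flatMap fun a => List.replicate (β a) a

lemma count_canon (β : Fin g → ℕ) (a : Fin g) : (canon β).count a = β a := by
  classical
  unfold canon
  rw [List.count_flatMap]
  have h : (List.map (List.count a ∘ fun b => List.replicate (β b) b) (List.finRange g)).sum =
      ∑ b : Fin g, if b = a then β b else 0 := by
    rw [← List.sum_ofFn, List.ofFn_eq_map]
    congr 1
    apply List.map_congr_left
    intro b _
    simp only [Function.comp_apply, List.count_replicate]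
    by_cases hb : b = a
    · simp [hb]
    · simp [hb]
  rw [h]
  simp

lemma perm_canon (w : List (Fin g)) : w.Perm (canon fun a => w.count a) := by
  classical
  rw [List.perm_iff_count]
  intro a
  rw [count_canon]

lemma van_of_words {F : (Fin g → ℂ) → ℂ} (hF : AnalyticAt ℂ F 0) {h : ℕ}
    (hw : ∀ w : List (Fin g), w.length < h → dds (w.map eb) F 0 = 0) : Van h F 0 := by
  classical
  intro l hl
  have h1 : ∃ μ : ℝ, 0 ≤ μ ∧ ∀ v ∈ l, ∑ i, ‖(v : Fin g → ℂ) i‖ ≤ μ := by
    refine ⟨(l.map fun v : Fin g → ℂ => ∑ i, ‖v i‖).sum, ?_, ?_⟩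
    · apply List.sum_nonneg
      intro x hx
      obtain ⟨v, _, rfl⟩ := List.mem_map.mp hx
      exact Finset.sum_nonneg fun _ _ => norm_nonneg _
    · intro v hv
      apply List.single_le_sum
      · intro x hx
        obtain ⟨v, _, rfl⟩ := List.mem_map.mp hx
        exact Finset.sum_nonneg fun _ _ => norm_nonneg _
      · exact List.mem_map.mpr ⟨v, hv, rfl⟩
  obtain ⟨μ, hμ0, hμ⟩ := h1
  have h2 := norm_dds_le hF (eb (g := g)) (X := 0) (μ := μ) (t := l.length) le_rfl
    (by
      intro w hwl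
      rw [hw w (by omega), norm_zero]) hμ0 l [] (by simp) (by
      intro v hv
      refine ⟨v, ?_, hμ v hv⟩
      funext j
      simp [eb, Finset.sum_apply, Pi.single_apply])
  simpa using h2

/-- linear algebra: more than `h^g` functions have a combination vanishing to order `h` at `0` -/
lemma exists_van {κ : Type*} [Fintype κ] (f : κ → (Fin g → ℂ) → ℂ)
    (hf : ∀ k, AnalyticAt ℂ (f k) 0) {h : ℕ} (hcard : h ^ g < Fintype.card κ) :
    ∃ c : κ → ℂ, c ≠ 0 ∧ Van h (∑ k, fun z => c k * f k z) 0 := by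
  classical
  let T : (κ → ℂ) →ₗ[ℂ] ((Fin g → Fin h) → ℂ) :=
    { toFun := fun c β => ∑ k, c k * dds ((canon fun a => (β a : ℕ)).map eb) (f k) 0
      map_add' := by
        intro c d
        funext β
        simp only [Pi.add_apply, add_mul, Finset.sum_add_distrib]
      map_smul' := by
        intro r c
        funext β
        simp only [Pi.smul_apply, smul_eq_mul, RingHom.id_apply, Finset.mul_sum, mul_assoc] }
  have hker : LinearMap.ker T ≠ ⊥ := by
    apply LinearMap.ker_ne_bot_of_finrank_lt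
    rw [Module.finrank_fintype_fun_eq_card, Module.finrank_fintype_fun_eq_card]
    simpa using hcard
  obtain ⟨c, hc, hc0⟩ := Submodule.exists_mem_ne_zero_of_ne_bot hker
  refine ⟨c, hc0, ?_⟩
  have hFa : AnalyticAt ℂ (∑ k, fun z => c k * f k z) 0 :=
    Finset.analyticAt_sum _ fun k _ => analyticAt_const.mul (hf k)
  apply van_of_words hFa
  intro w hw
  rw [dds_perm ((perm_canon w).map eb) hFa]
  rw [dds_sum Finset.univ (fun k z => c k * f k z) _
    fun k _ => (analyticAt_const (v := c k)).mul (hf k)]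
  have hlt : ∀ a, w.count a < h := fun a => lt_of_le_of_lt List.count_le_length hw
  have h1 := congrFun (LinearMap.mem_ker.mp hc) (fun a => ⟨w.count a, hlt a⟩)
  simp only [T, LinearMap.coe_mk, AddHom.coe_mk, Pi.zero_apply] at h1
  rw [← h1]
  apply Finset.sum_congr rfl
  intro k _
  exact dds_const_mul _ _ (hf k)

end van

section schwarz

variable {E : Type*} [NormedAddCommGroup E] [NormedSpace ℂ E]

/-- Schwarz lemma for a function with a zero of order at least `h` at the origin -/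
lemma schwarz {F : E → ℂ} (hF : ∀ z, AnalyticAt ℂ F z) {h : ℕ} (hv : Van h F 0) {R : ℝ} {B : ℝ}
    (hR : 1 ≤ R) {r : ℝ} (hB : ∀ y, ‖y‖ ≤ R * r → ‖F y‖ ≤ B) {z : E} (hz : ‖z‖ ≤ r) :
    ‖F z‖ ≤ B / R ^ h := by
  have hR0 : 0 < R := by linarith
  set φ : ℂ → ℂ := fun s => F (0 + s • z) with hφ
  have hφd : Differentiable ℂ φ := differentiable_line hF 0 z
  have hord : (h : ℕ∞) ≤ analyticOrderAt φ 0 := by
    rw [natCast_le_analyticOrderAt_iff_iteratedDeriv_eq_zero (hφd.analyticAt 0)]
    intro j hj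
    rw [hφ, iteratedDeriv_line hF]
    simp only [zero_smul, add_zero]
    exact hv _ (by simpa using hj)
  obtain ⟨ψ, hψ, hfac⟩ := factor_one hφd 0 h hord
  have hψb : ∀ s : ℂ, ‖s‖ = R → ‖ψ s‖ ≤ B / R ^ h := by
    intro s hs
    rw [le_div_iff₀ (by positivity)]
    calc ‖ψ s‖ * R ^ h = ‖φ s‖ := by
          rw [hfac s, norm_mul, norm_pow, sub_zero, hs, mul_comm]
      _ ≤ B := by
          apply hB
          rw [zero_add, norm_smul, hs]
          gcongr
  have hψ1 : ‖ψ 1‖ ≤ B / R ^ h := by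
    refine Complex.norm_le_of_forall_mem_frontier_norm_le (U := Metric.ball 0 R)
      Metric.isBounded_ball hψ.diffContOnCl ?_ ?_
    · intro s hs
      rw [frontier_ball (0 : ℂ) hR0.ne', mem_sphere_zero_iff_norm] at hs
      exact hψb s hs
    · rw [closure_ball (0 : ℂ) hR0.ne', mem_closedBall_zero_iff, norm_one]
      exact hR
  have h1 : φ 1 = F z := by simp [hφ]
  rw [← h1, hfac 1]
  simpa using hψ1

/-- A quasi-periodic entire function with a zero of high order at the origin vanishes. -/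
lemma eq_zero_of_quasi [FiniteDimensional ℂ E] {F : E → ℂ} (hF : ∀ z, AnalyticAt ℂ F z) {h : ℕ}
    (hv : Van h F 0) (Λ : Set E) {r : ℝ} (hr0 : 0 ≤ r) (hr : ∀ z, ∃ l ∈ Λ, ‖z - l‖ ≤ r) {K : ℝ}
    (hK : 0 ≤ K)
    (hq : ∀ l ∈ Λ, ∃ w : E → ℂ, ∀ z, F (z + l) = w z * F z ∧
      ‖w z‖ ≤ Real.exp (K * (1 + ‖l‖ + ‖z‖) ^ 2))
    (hh : K * (1 + 5 * r) ^ 2 < h) (z : E) : F z = 0 := by
  have : ProperSpace E := FiniteDimensional.proper ℂ E
  have hcont : Continuous F := continuous_iff_continuousAt.mpr fun z => (hF z).continuousAt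
  obtain ⟨z0, hz0, hmax⟩ := (isCompact_closedBall (0 : E) r).exists_isMaxOn
    ⟨0, by simpa using hr0⟩ (hcont.norm.continuousOn)
  have hz0' : ‖z0‖ ≤ r := by simpa using hz0
  have hmax' : ∀ y, ‖y‖ ≤ r → ‖F y‖ ≤ ‖F z0‖ := by
    intro y hy
    exact hmax (by simpa using hy)
  have hbig : ∀ y, ‖y‖ ≤ 3 * r → ‖F y‖ ≤ Real.exp (K * (1 + 5 * r) ^ 2) * ‖F z0‖ := by
    intro y hy
    obtain ⟨l, hl, hyl⟩ := hr y
    obtain ⟨w, hw⟩ := hq l hl
    obtain ⟨h1, h2⟩ := hw (y - l)
    rw [sub_add_cancel] at h1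
    rw [h1, norm_mul]
    have hln : ‖l‖ ≤ 4 * r := by
      calc ‖l‖ = ‖y - (y - l)‖ := by rw [sub_sub_cancel]
        _ ≤ ‖y‖ + ‖y - l‖ := norm_sub_le _ _
        _ ≤ 4 * r := by linarith
    have h3 : ‖w (y - l)‖ ≤ Real.exp (K * (1 + 5 * r) ^ 2) := by
      refine h2.trans (Real.exp_le_exp.mpr ?_)
      have h4 : 1 + ‖l‖ + ‖y - l‖ ≤ 1 + 5 * r := by linarith
      have h5 : 0 ≤ 1 + ‖l‖ + ‖y - l‖ := by positivity
      gcongr
    exact mul_le_mul h3 (hmax' _ hyl) (norm_nonneg _) (Real.exp_pos _).le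
  have hsch := schwarz hF hv (R := 3) (r := r) (by norm_num) hbig hz0'
  have hF0 : ‖F z0‖ = 0 := by
    by_contra hne
    have hpos : 0 < ‖F z0‖ := lt_of_le_of_ne (norm_nonneg _) (Ne.symm hne)
    have h1 : Real.exp (K * (1 + 5 * r) ^ 2) < 3 ^ h := by
      calc Real.exp (K * (1 + 5 * r) ^ 2) < Real.exp h := Real.exp_lt_exp.mpr hh
        _ = Real.exp 1 ^ h := by rw [← Real.exp_nat_mul, mul_one]
        _ ≤ 3 ^ h := by
            apply pow_le_pow_left₀ (Real.exp_pos _).le
            have := Real.exp_one_lt_d9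
            linarith
    rw [le_div_iff₀ (by positivity)] at hsch
    nlinarith
  have hall : ∀ y, F y = 0 := by
    intro y
    obtain ⟨l, hl, hyl⟩ := hr y
    obtain ⟨w, hw⟩ := hq l hl
    have h1 := (hw (y - l)).1
    rw [sub_add_cancel] at h1
    have h2 : ‖F (y - l)‖ ≤ 0 := by
      rw [← hF0]
      exact hmax' _ hyl
    rw [h1, norm_le_zero_iff.mp h2, mul_zero]
  exact hall z

end schwarz

end Pool.Agent.Helper79.AF
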